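import Pool.Agent.Helper79.PN.Lem

set_option autoImplicit false

/-!
BT: every vertex of degree 3 is used at most once.
-/

open scoped Classical

namespace Pool.Agent.Helper79.PN

theorem bt_A (P : Pen) (w : Lam) (m : ZMod 5) (hn : P.n w = 2) (h : X1 P (w - e (m + 1)) m) :
    T2 P w (m + 1) ∧ g - 1 < P.h w m := by
  obtain ⟨hX, hI, h1, h2, h3⟩ := h
  have g1 := g_gt
  have g2 := g_lt
  obtain ⟨t0, t1, t4, t2, t3⟩ := P.stp1 (w - e (m + 1)) m
  rw [sub_add_cancel] at t0 t1 t4 t2 t3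
  have v := w1 hX hI
  obtain ⟨v0, v0a, v0b, v0c, v0d, v0e⟩ := v m
  obtain ⟨v1, v1a, v1b, v1c, v1d, v1e⟩ := v (m + 1)
  obtain ⟨v4, v4a, v4b, v4c, v4d, v4e⟩ := v (m - 1)
  obtain ⟨v2, v2a, v2b, v2c, v2d, v2e⟩ := v (m + 2)
  obtain ⟨v3, v3a, v3b, v3c, v3d, v3e⟩ := v (m - 2)
  obtain ⟨a1, a2, a3, a4, a5⟩ := P.rel0 (w - e (m + 1)) m
  obtain ⟨b1, b2, b3, b4, b5⟩ := P.relg (w - e (m + 1)) m
  obtain ⟨-, c4⟩ := gm h3
  have hs := g_sq
  refine ⟨⟨hn, (inv2 hn).2 (all5 m ?_ ?_ ?_ ?_ ?_), ?_, ?_⟩, ?_⟩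
  · linarith
  · linarith
  · linarith
  · linarith
  · linarith
  · rw [p1p2]
    nlinarith
  · rw [p1m2]
    linarith
  · linarith

theorem bt_B (P : Pen) (w : Lam) (m : ZMod 5) (hn : P.n w = 2) (h : X1 P (w - e (m - 1)) m) :
    T2 P w (m - 1) ∧ g - 1 < P.h w m := by
  obtain ⟨hX, hI, h1, h2, h3⟩ := h
  have g1 := g_gt
  have g2 := g_lt
  obtain ⟨t0, t1, t4, t2, t3⟩ := P.stp4 (w - e (m - 1)) m
  rw [sub_add_cancel] at t0 t1 t4 t2 t3
  have v := w1 hX hI
  obtain ⟨v0, v0a, v0b, v0c, v0d, v0e⟩ := v m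
  obtain ⟨v1, v1a, v1b, v1c, v1d, v1e⟩ := v (m + 1)
  obtain ⟨v4, v4a, v4b, v4c, v4d, v4e⟩ := v (m - 1)
  obtain ⟨v2, v2a, v2b, v2c, v2d, v2e⟩ := v (m + 2)
  obtain ⟨v3, v3a, v3b, v3c, v3d, v3e⟩ := v (m - 2)
  obtain ⟨a1, a2, a3, a4, a5⟩ := P.rel0 (w - e (m - 1)) m
  obtain ⟨b1, b2, b3, b4, b5⟩ := P.relg (w - e (m - 1)) m
  obtain ⟨-, c4⟩ := gm h2
  have hs := g_sq
  refine ⟨⟨hn, (inv2 hn).2 (all5 m ?_ ?_ ?_ ?_ ?_), ?_, ?_⟩, ?_⟩
  · linarith
  · linarith
  · linarith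
  · linarith
  · linarith
  · rw [m1p2]
    linarith
  · rw [m1m2]
    nlinarith
  · linarith

theorem bt_C (P : Pen) (w : Lam) (m : ZMod 5) (hn : P.n w = 2)
    (h : X1 P.mir (-(w + e (m + 2) + e (m - 2))) m) :
    T2 P w m ∧ (2 - g) / 2 < P.h w (m + 1) ∧ (2 - g) / 2 < P.h w (m - 1) := by
  obtain ⟨hX, hI, h1, h2, h3⟩ := h
  have g1 := g_gt
  have g2 := g_lt
  rw [inv_mir] at hI
  rw [Pen.mir_h, neg_neg] at h1 h2 h3
  have n4 : P.n (w + e (m + 2) + e (m - 2)) = 4 := by rw [P.n_add, P.n_add, hn]; rfl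
  rw [inv4 n4] at hI
  obtain ⟨s0, s1, s4, s2, s3⟩ := P.stp2 w m
  obtain ⟨t0, t1, t4, t2, t3⟩ := P.stp3 (w + e (m + 2)) m
  have v0 := hI m
  have v1 := hI (m + 1)
  have v4 := hI (m - 1)
  have v2 := hI (m + 2)
  have v3 := hI (m - 2)
  obtain ⟨a1, a2, a3, a4, a5⟩ := P.rel0 w m
  obtain ⟨b1, b2, b3, b4, b5⟩ := P.relg w m
  have hs := g_sq
  refine ⟨⟨hn, (inv2 hn).2 (all5 m ?_ ?_ ?_ ?_ ?_), ?_, ?_⟩, ?_, ?_⟩
  · linarith
  · have : g * (P.h w (m + 1)) < g * ((g + 1) / 2) := by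
      have e1 := b2
      have e2 := (gm (show P.h w m < (g + 1) / 2 by linarith)).1
      nlinarith
    nlinarith
  · have : g * (P.h w (m - 1)) < g * ((g + 1) / 2) := by
      nlinarith
    nlinarith
  · linarith
  · linarith
  · linarith
  · linarith
  · linarith
  · linarith

theorem bt_uniq (P : Pen) (w : Lam) (k j : ZMod 5) (hk : T2 P w k) (hj : T2 P w j) : j = k := by
  obtain ⟨hn, hv, h2, h3⟩ := hk
  obtain ⟨-, -, y2, y3⟩ := hj
  have g1 := g_gt
  have g2 := g_lt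
  have v := w2 hn hv
  obtain ⟨v0, v0a, v0b, v0c, v0d, v0e⟩ := v k
  obtain ⟨v1, v1a, v1b, v1c, v1d, v1e⟩ := v (k + 1)
  obtain ⟨v4, v4a, v4b, v4c, v4d, v4e⟩ := v (k - 1)
  obtain ⟨v2, v2a, v2b, v2c, v2d, v2e⟩ := v (k + 2)
  obtain ⟨v3, v3a, v3b, v3c, v3d, v3e⟩ := v (k - 2)
  obtain ⟨a1, a2, a3, a4, a5⟩ := P.rel0 w k
  obtain ⟨b1, b2, b3, b4, b5⟩ := P.relg w k
  have hr := P.rel2 w k
  rcases cas5 k j with h | h | h | h | h
  · exact h
  all_goals
    exfalso
    rw [h] at y2 y3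
    (try simp only [p1p2, p1m2, m1p2, m1m2, p2p2, p2m2, m2p2, m2m2] at y2 y3)
    linarith

theorem st_BT : ST_BT := by
  intro P w
  refine ⟨fun hn => ?_, fun hn => ?_⟩
  · by_cases hT : IsT P w
    · rw [ind_true hT]
      rw [isT_1 hn] at hT
      obtain ⟨k, hk⟩ := hT
      obtain ⟨-, hv, h2, h3⟩ := hk
      have g1 := g_gt
      have g2 := g_lt
      have v := w1 hn hv
      obtain ⟨v0, v0a, v0b, v0c, v0d, v0e⟩ := v k
      obtain ⟨v1, v1a, v1b, v1c, v1d, v1e⟩ := v (k + 1)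
      obtain ⟨v4, v4a, v4b, v4c, v4d, v4e⟩ := v (k - 1)
      obtain ⟨v2, v2a, v2b, v2c, v2d, v2e⟩ := v (k + 2)
      obtain ⟨v3, v3a, v3b, v3c, v3d, v3e⟩ := v (k - 2)
      obtain ⟨a1, a2, a3, a4, a5⟩ := P.rel0 w k
      obtain ⟨b1, b2, b3, b4, b5⟩ := P.relg w k
      have hr := P.rel2 w k
      rw [sum5 k]
      have z1 : ind (T1 P w (k + 1)) = 0 := by
        refine ind_false ?_
        rintro ⟨-, -, x, y⟩
        rw [p1p2] at x
        rw [p1m2] at y
        linarith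
      have z4 : ind (T1 P w (k - 1)) = 0 := by
        refine ind_false ?_
        rintro ⟨-, -, x, y⟩
        rw [m1p2] at x
        rw [m1m2] at y
        linarith
      have z2 : ind (T1 P w (k + 2)) = 0 := by
        refine ind_false ?_
        rintro ⟨-, -, x, y⟩
        rw [p2p2] at x
        rw [p2m2] at y
        have hh := (gm y).1
        nlinarith
      have z3 : ind (T1 P w (k - 2)) = 0 := by
        refine ind_false ?_
        rintro ⟨-, -, x, y⟩
        rw [m2p2] at x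
        rw [m2m2] at y
        have hh := (gm x).1
        nlinarith
      rw [z1, z2, z3, z4]
      linarith [ind_le_one (T1 P w k)]
    · have hz : ∀ m, ind (T1 P w m) = 0 := by
        intro m
        refine ind_false fun h => hT ?_
        rw [isT_1 hn]
        exact ⟨m, h⟩
      simp only [hz, Finset.sum_const_zero]
      exact ind_nonneg _
  · by_cases hT : IsT P w
    · rw [ind_true hT]
      rw [isT_2 hn] at hT
      obtain ⟨k, hk⟩ := hT
      have A : ∀ m, ¬ (m + 1 = k) → ind (X1 P (w - e (m + 1)) m) = 0 := by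
        intro m hm
        refine ind_false fun h => hm ?_
        exact bt_uniq P w k _ hk (bt_A P w m hn h).1
      have B : ∀ m, ¬ (m - 1 = k) → ind (X1 P (w - e (m - 1)) m) = 0 := by
        intro m hm
        refine ind_false fun h => hm ?_
        exact bt_uniq P w k _ hk (bt_B P w m hn h).1
      have C : ∀ m, ¬ (m = k) → ind (X1 P.mir (-(w + e (m + 2) + e (m - 2))) m) = 0 := by
        intro m hm
        refine ind_false fun h => hm ?_
        exact bt_uniq P w k _ hk (bt_C P w m hn h).1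
      have q1 : ∀ k : ZMod 5, ¬ (k + 1 = k) := by decide
      have q2 : ∀ k : ZMod 5, ¬ (k + 2 = k) := by decide
      have q3 : ∀ k : ZMod 5, ¬ (k - 2 = k) := by decide
      have q4 : ∀ k : ZMod 5, ¬ (k - 1 = k) := by decide
      rw [sum5 k]
      rw [A k (q1 k), B k (q4 k)]
      rw [A (k + 1) (by rw [p1p1]; exact q2 k), C (k + 1) (q1 k)]
      rw [B (k - 1) (by rw [m1m1]; exact q3 k), C (k - 1) (q4 k)]
      rw [A (k + 2) (by rw [p2p1]; exact q3 k), B (k + 2) (by rw [p2m1]; exact q1 k),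
        C (k + 2) (q2 k)]
      rw [A (k - 2) (by rw [m2p1]; exact q4 k), B (k - 2) (by rw [m2m1]; exact q2 k),
        C (k - 2) (q3 k)]
      have g1 := g_gt
      have g2 := g_lt
      have a1 := (P.rel0 w k).1
      have v0 := (w2 hn hk.2.1 k).2.2.1
      by_cases c1 : X1 P (w - e (k + 1 - 1)) (k + 1)
      · have d1 := (bt_B P w (k + 1) hn c1).2
        have c2 : ¬ X1 P (w - e (k - 1 + 1)) (k - 1) := by
          intro h
          have d2 := (bt_A P w (k - 1) hn h).2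
          linarith
        have c3 : ¬ X1 P.mir (-(w + e (k + 2) + e (k - 2))) k := by
          intro h
          have d2 := (bt_C P w k hn h).2.2
          linarith
        rw [ind_false c2, ind_false c3]
        linarith [ind_le_one (X1 P (w - e (k + 1 - 1)) (k + 1))]
      · rw [ind_false c1]
        by_cases c2 : X1 P (w - e (k - 1 + 1)) (k - 1)
        · have d1 := (bt_A P w (k - 1) hn c2).2
          have c3 : ¬ X1 P.mir (-(w + e (k + 2) + e (k - 2))) k := by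
            intro h
            have d2 := (bt_C P w k hn h).2.1
            linarith
          rw [ind_false c3]
          linarith [ind_le_one (X1 P (w - e (k - 1 + 1)) (k - 1))]
        · rw [ind_false c2]
          linarith [ind_le_one (X1 P.mir (-(w + e (k + 2) + e (k - 2))) k)]
    · have hz1 : ∀ m, ind (X1 P (w - e (m + 1)) m) = 0 := by
        intro m
        refine ind_false fun h => hT ?_
        rw [isT_2 hn]
        exact ⟨_, (bt_A P w m hn h).1⟩
      have hz2 : ∀ m, ind (X1 P (w - e (m - 1)) m) = 0 := by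
        intro m
        refine ind_false fun h => hT ?_
        rw [isT_2 hn]
        exact ⟨_, (bt_B P w m hn h).1⟩
      have hz3 : ∀ m, ind (X1 P.mir (-(w + e (m + 2) + e (m - 2))) m) = 0 := by
        intro m
        refine ind_false fun h => hT ?_
        rw [isT_2 hn]
        exact ⟨_, (bt_C P w m hn h).1⟩
      simp only [hz1, hz2, hz3, add_zero, Finset.sum_const_zero]
      exact ind_nonneg _

end Pool.Agent.Helper79.PN
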